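import Mathlib
import Pool.Agent.Helper184.MolsDefs
import Pool.Agent.Helper478.MolsF

set_option autoImplicit false

namespace Pool.Agent.Results.MP_adbd0c_co.PrimePowers

open Pool.Agent.Helper184.Mols

/-- For every prime `p` and every `j ≥ 2` with `p ^ j` different from `4` and `8`, the maximum
`M (p ^ j)` of the problem is attained and equals `p ^ j - 1`. -/
theorem result : ∀ p j : ℕ, p.Prime → 2 ≤ j → p ^ j ≠ 4 → p ^ j ≠ 8 →
    IsGreatest {m : ℕ | HasFamily (p ^ j) m} (p ^ j - 1) ∧ M (p ^ j) = p ^ j - 1 := by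
  intro p j hp hj h4 h8
  have h := Pool.Agent.Helper478.MolsF.M_prime_pow p j hp hj h4 h8
  refine ⟨?_, h⟩
  rw [← h]
  apply M_isGreatest
  calc 2 ≤ p := hp.two_le
    _ = p ^ 1 := (pow_one p).symm
    _ ≤ p ^ j := Nat.pow_le_pow_right hp.pos (by omega)

end Pool.Agent.Results.MP_adbd0c_co.PrimePowers
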