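import Mathlib
import Pool.Agent.Helper184.MolsDefs
import Pool.Agent.Helper478.MolsI

set_option autoImplicit false

namespace Pool.Agent.Results.MP_adbd0c_co.Primes

open Pool.Agent.Helper184.Mols

/-- For every prime `p ≥ 5` there are at least `(p - 5) / 2` mutually orthogonal quasigroups of
order `p`, none of them isotopic to a group. -/
theorem result : ∀ p : ℕ, p.Prime → 5 ≤ p → (p - 5) / 2 ≤ M p :=
  Pool.Agent.Helper478.MolsI.M_prime

end Pool.Agent.Results.MP_adbd0c_co.Primes
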