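import Mathlib
import Pool.Agent.Helper184.MolsDefs
import Pool.Agent.Helper478.MolsG
import Pool.Agent.Helper478.MolsH

set_option autoImplicit false

namespace Pool.Agent.Results.MP_adbd0c_co.Products

open Pool.Agent.Helper184.Mols Pool.Agent.Helper478.MolsG

/-- If there are `s` mutually orthogonal latin squares of order `m` and `s` of order `n`, where
`m ≥ 3` and `n ≥ 2`, then there are `s` mutually orthogonal quasigroups of order `m n`, none of
them isotopic to a group: `M (m n) ≥ s`. -/
theorem result : ∀ m n s : ℕ, 3 ≤ m → 2 ≤ n → HasMols m s → HasMols n s →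
    HasFamily (m * n) s ∧ s ≤ M (m * n) := by
  intro m n s hm hn h1 h2
  exact ⟨Pool.Agent.Helper478.MolsH.family_twist hm hn h1 h2,
    Pool.Agent.Helper478.MolsH.M_twist hm hn h1 h2⟩

end Pool.Agent.Results.MP_adbd0c_co.Products
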